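import Pool.Agent.helper92.ISO.SpecC

/-!
# Row iso:SND (MP_069684_lc)
-/

set_option autoImplicit false

open Filter Topology

namespace Pool.Agent.ISO

open Pool.Agent.PB

theorem SND_proof (hWTC : WTC_stmt) : SND_stmt := by
  intro n w M R N k m κ p f h K W e0 X u x hK hWV hcond hX hx
  have h1 : ∀ e, e ≠ e0 → ∀ y, f (Fin.append (Function.update X e0 x e) y) = true ↔ y = u e := by
    intro e he y
    rw [Function.update_of_ne he]
    exact hX e he y
  have h2 : ∀ y, f (Fin.append (Function.update X e0 x e0) y) = false := by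
    intro y
    rw [Function.update_self]
    exact hx y
  obtain ⟨h3, h4⟩ := hWTC n w M R N f h K (Function.update X e0 x) u e0 h1 h2
  have h5 := hcond (enc N (Function.update X e0 x)) (by rw [h3]; exact (hK e0).1) (by rw [h3]; exact (hK e0).2)
  have h6 : (Finset.univ.filter fun i => 1 ≤ wit (W i) (enc N (Function.update X e0 x)) ∧
      wit (W i) (enc N (Function.update X e0 x)) ≤ κ).card =
      (Finset.univ.filter fun i => 1 ≤ tcnt K (W i) e0 X u x ∧ tcnt K (W i) e0 X u x ≤ κ).card := by
    congr 1
    apply Finset.filter_congr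
    intro i _
    rw [h4 (W i) (hWV i)]
    rfl
  rw [h6] at h5
  unfold tst
  rw [decide_eq_false_iff_not, not_lt]
  exact h5

end Pool.Agent.ISO
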